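import Pool.Agent.Helper9.FA.Loc

/-!
# The expansion in rows and the cup rule
-/

namespace Pool.Agent.Helper9.FA

open Finset
open Pool.Agent.Helper9.Kashaev Pool.Agent.Helper9.TG
open Pool.Agent.Helper9 (TB.lam TB.bb TB.sf)

variable {M : Type} [AddCommGroup M] [Module ℂ M]

/-- the coefficients -/
private noncomputable def locaC (N e j : ℕ) : ℂ :=
  v N ^ (((N : ℤ) - 1 - e + j) * j) * qb N e j * qfac N (e - j) ^ 2

private theorem locaC_zero {N : ℕ} (hN : 2 ≤ N) {e : ℕ} (he : e + 1 < N) :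
    locaC N (e + 1) 0 = locaC N e 0 * ecoef N (e + 1) := by
  unfold locaC
  rw [ecoef_eq hN he.le, qb_zero_right, qb_zero_right, Nat.sub_zero, Nat.sub_zero, qfac_succ]
  push_cast
  simp only [mul_zero, zpow_zero]
  ring

private theorem locaC_succ {N : ℕ} (hN : 2 ≤ N) {e j : ℕ} (he : e + 1 < N) (hj : j ≤ e) :
    locaC N (e + 1) (j + 1) = locaC N e j * v N ^ (wt N (e - j)) +
      locaC N e (j + 1) * ecoef N (e - (j + 1) + 1) := by
  obtain ⟨q, rfl⟩ : ∃ q, e = j + q := ⟨e - j, by omega⟩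
  have hv := v_ne N
  unfold locaC wt
  rw [show j + q + 1 - (j + 1) = q by omega, show j + q - j = q by omega,
    qb_succ' hN (by omega)]
  have e1 : v N ^ (((N : ℤ) - 1 - ((j + q + 1 : ℕ) : ℤ) + ((j + 1 : ℕ) : ℤ)) * ((j + 1 : ℕ) : ℤ)) *
      v N ^ (-(((j + q : ℕ) : ℤ) - j)) =
      v N ^ (((N : ℤ) - 1 - ((j + q : ℕ) : ℤ) + (j : ℤ)) * (j : ℤ)) *
        v N ^ ((N : ℤ) - 1 - 2 * (q : ℤ)) := by
    rw [← zpow_add₀ hv, ← zpow_add₀ hv]
    congr 1
    push_cast
    ring
  have e2 : v N ^ (((N : ℤ) - 1 - ((j + q + 1 : ℕ) : ℤ) + ((j + 1 : ℕ) : ℤ)) * ((j + 1 : ℕ) : ℤ)) *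
      v N ^ ((j : ℤ) + 1) =
      v N ^ (((N : ℤ) - 1 - ((j + q : ℕ) : ℤ) + ((j + 1 : ℕ) : ℤ)) * ((j + 1 : ℕ) : ℤ)) := by
    rw [← zpow_add₀ hv]
    congr 1
    push_cast
    ring
  rcases Nat.eq_zero_or_pos q with rfl | hq
  · rw [qb_gt (j + 0) (j + 1) (by omega)]
    simp only [mul_zero, zero_mul, add_zero, zero_add] at e1 e2 ⊢
    linear_combination (qb N j j * qfac N 0 ^ 2) * e1
  · obtain ⟨t, rfl⟩ : ∃ t, q = t + 1 := ⟨q - 1, by omega⟩
    rw [show j + (t + 1) - (j + 1) = t by omega, ecoef_eq hN (by omega), qfac_succ]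
    push_cast at e1 e2 ⊢
    linear_combination (qb N (j + (t + 1)) j * (qfac N t * qi N (t + 1)) ^ 2) * e1 +
      (qb N (j + (t + 1)) (j + 1) * (qfac N t * qi N (t + 1)) ^ 2) * e2

/-- the expansion in rows -/
theorem Z1_row {N : ℕ} (hN : 2 ≤ N) (x : M →ₗ[ℂ] M) (G : ℕ → ℕ → M) {e : ℕ} (he : e < N) :
    ((Z1 N x)^[e] G) 0 0 = ∑ j ∈ range (e + 1),
      (v N ^ (((N : ℤ) - 1 - e + j) * j) * qb N e j * qfac N (e - j) ^ 2) •
        (x ^ j) (G (e - j) 0) := by
  show _ = ∑ j ∈ range (e + 1), locaC N e j • (x ^ j) (G (e - j) 0)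
  induction e generalizing G with
  | zero =>
    simp [locaC, qb, qfac_zero]
  | succ e ih =>
    rw [Function.iterate_succ_apply, ih _ (by omega)]
    have e0 : ∀ j ∈ range (e + 1), locaC N e j • (x ^ j) (Z1 N x G (e - j) 0) =
        (locaC N e j * v N ^ (wt N (e - j))) • (x ^ (j + 1)) (G (e - j) 0) +
        (locaC N e j * ecoef N (e - j + 1)) • (x ^ j) (G (e + 1 - j) 0) := by
      intro j hj
      rw [mem_range] at hj
      unfold Z1
      rw [map_add, map_smul, map_smul, smul_add, smul_smul, smul_smul, pow_succ]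
      rw [show e + 1 - j = e - j + 1 by omega]
      rfl
    rw [sum_congr rfl e0, sum_add_distrib]
    have e1 : ∑ j ∈ range (e + 1), (locaC N e j * ecoef N (e - j + 1)) •
        (x ^ j) (G (e + 1 - j) 0) = ∑ j ∈ range (e + 2), (locaC N e j * ecoef N (e - j + 1)) •
        (x ^ j) (G (e + 1 - j) 0) := by
      rw [sum_range_succ _ (e + 1)]
      have : locaC N e (e + 1) = 0 := by
        unfold locaC
        rw [qb_gt e (e + 1) (by omega)]
        ring
      rw [this, zero_mul, zero_smul, add_zero]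
    rw [e1, sum_range_succ' _ (e + 1), sum_range_succ' _ (e + 1), ← add_assoc, ← sum_add_distrib]
    congr 1
    · refine sum_congr rfl fun j hj => ?_
      rw [mem_range] at hj
      rw [show e + 1 - (j + 1) = e - j by omega, ← add_smul, locaC_succ hN he (by omega)]
    · rw [locaC_zero hN he, Nat.sub_zero]

/-- the cup rule: `G i j = [i + j = N - 1] cupC i • h` -/
theorem cup_loc {N : ℕ} (hN : 2 ≤ N) (x : M →ₗ[ℂ] M) (h : M) {e : ℕ} (he : e < N) :
    ((Z1 N x)^[e] (fun i j => if i + j + 1 = N then cupC N i • h else 0)) 0 0 =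
      if e = N - 1 then (qfac N (N - 1) ^ 2 * cupC N (N - 1)) • h else 0 := by
  rw [Z1_row hN x _ he, sum_eq_single 0]
  · by_cases h1 : e = N - 1
    · subst h1
      rw [if_pos rfl, if_pos (by omega), qb_zero_right]
      simp only [Nat.cast_zero, mul_zero, zpow_zero, Nat.sub_zero, pow_zero, one_mul]
      rw [Module.End.one_apply, smul_smul]
    · rw [if_neg h1, if_neg (by omega), map_zero, smul_zero]
  · intro j hj hj0
    rw [mem_range] at hj
    rw [if_neg (by omega), map_zero, smul_zero]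
  · intro h0
    simp at h0

end Pool.Agent.Helper9.FA
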