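import Pool.Agent.Helper9.FA.Loc

/-!
# The cap rule
-/

namespace Pool.Agent.Helper9.FA

open Finset
open Pool.Agent.Helper9.Kashaev Pool.Agent.Helper9.TG
open Pool.Agent.Helper9 (TB.lam TB.bb TB.sf)

variable {M : Type} [AddCommGroup M] [Module ℂ M]

private theorem locd_vN {N : ℕ} (hN : 2 ≤ N) (k : ℤ) : v N ^ ((N : ℤ) * k) = (-1) ^ k := by
  rw [zpow_mul, v_zpow_self hN]

private theorem locd_qfac {p : ℕ} (hp : 1 ≤ p) {a : ℕ} (ha : a ≤ p) :
    qfac (p + 1) a * qfac (p + 1) (p - a) = qfac (p + 1) p := by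
  induction a with
  | zero => rw [qfac_zero, Nat.sub_zero, one_mul]
  | succ a ih =>
    rw [← ih (by omega), qfac_succ, show p - a = (p - (a + 1)) + 1 by omega, qfac_succ]
    have h := qi_N_sub (N := p + 1) (by omega) ((a : ℤ) + 1)
    have e : (((p - (a + 1) : ℕ) : ℤ) + 1) = ((p + 1 : ℕ) : ℤ) - ((a : ℤ) + 1) := by
      push_cast [Nat.cast_sub (show a + 1 ≤ p from ha)]
      ring
    rw [e, h]
    ring

private theorem locd_qb {p : ℕ} (hp : 1 ≤ p) {s j : ℕ} (hs : s ≤ p) (hj : j ≤ s) :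
    qb (p + 1) (p - s + j) j = qb (p + 1) s j := by
  have h1 := qb_mul (N := p + 1) (p - s + j) j (by omega)
  have h2 := qb_mul (N := p + 1) s j hj
  rw [show p - s + j - j = p - s by omega] at h1
  have h3 := locd_qfac hp (a := s - j) (by omega)
  rw [show p - (s - j) = p - s + j by omega] at h3
  have h4 := locd_qfac hp hs
  have f1 : qfac (p + 1) j ≠ 0 := qfac_ne (by omega)
  have f2 : qfac (p + 1) (p - s) ≠ 0 := qfac_ne (by omega)
  have f3 : qfac (p + 1) (s - j) ≠ 0 := qfac_ne (by omega)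
  refine mul_right_cancel₀ (mul_ne_zero (mul_ne_zero f1 f2) f3) ?_
  linear_combination (qfac (p + 1) (s - j)) * h1 - (qfac (p + 1) (p - s)) * h2 + h3 - h4

private theorem locd_sum {N : ℕ} (s : ℕ) :
    ∑ j ∈ range (s + 2), (-1 : ℂ) ^ j * v N ^ ((j : ℤ) * s) * qb N (s + 1) j = 0 := by
  have hv := v_ne N
  induction s with
  | zero =>
    simp [sum_range_succ, qb]
  | succ s ih =>
    rw [sum_range_succ']
    have e : ∀ j ∈ range (s + 2), (-1 : ℂ) ^ (j + 1) * v N ^ (((j + 1 : ℕ) : ℤ) * ((s + 1 : ℕ) : ℤ)) *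
        qb N (s + 1 + 1) (j + 1) =
        (-1 : ℂ) ^ (j + 1) * v N ^ (((j + 1 : ℕ) : ℤ) * (s : ℤ)) * qb N (s + 1) (j + 1) -
          v N ^ (2 * ((s : ℤ) + 1)) * ((-1 : ℂ) ^ j * v N ^ ((j : ℤ) * s) * qb N (s + 1) j) := by
      intro j _
      show (-1 : ℂ) ^ (j + 1) * v N ^ (((j + 1 : ℕ) : ℤ) * ((s + 1 : ℕ) : ℤ)) *
        (v N ^ (-((j : ℤ) + 1)) * qb N (s + 1) (j + 1) +
          v N ^ (((s + 1 : ℕ) : ℤ) - j) * qb N (s + 1) j) = _
      have z1 : v N ^ (((j + 1 : ℕ) : ℤ) * ((s + 1 : ℕ) : ℤ)) * v N ^ (-((j : ℤ) + 1)) =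
          v N ^ (((j + 1 : ℕ) : ℤ) * (s : ℤ)) := by
        rw [← zpow_add₀ hv]; congr 1; push_cast; ring
      have z2 : v N ^ (((j + 1 : ℕ) : ℤ) * ((s + 1 : ℕ) : ℤ)) * v N ^ (((s + 1 : ℕ) : ℤ) - j) =
          v N ^ (2 * ((s : ℤ) + 1)) * v N ^ ((j : ℤ) * s) := by
        rw [← zpow_add₀ hv, ← zpow_add₀ hv]; congr 1; push_cast; ring
      linear_combination ((-1 : ℂ) ^ (j + 1) * qb N (s + 1) (j + 1)) * z1 +
        ((-1 : ℂ) ^ (j + 1) * qb N (s + 1) j) * z2
    rw [sum_congr rfl e, sum_sub_distrib, ← mul_sum, ih, mul_zero, sub_zero]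
    have h := ih
    rw [sum_range_succ'] at h
    have h2 : ∑ j ∈ range (s + 2), (-1 : ℂ) ^ (j + 1) * v N ^ (((j + 1 : ℕ) : ℤ) * (s : ℤ)) *
        qb N (s + 1) (j + 1) = ∑ j ∈ range (s + 1), (-1 : ℂ) ^ (j + 1) *
          v N ^ (((j + 1 : ℕ) : ℤ) * (s : ℤ)) * qb N (s + 1) (j + 1) := by
      rw [sum_range_succ _ (s + 1), qb_gt (s + 1) (s + 1 + 1) (by omega), mul_zero, add_zero]
    rw [h2]
    simpa [qb_zero_right] using h

/-! ### the parts of `Z2` -/

private noncomputable def locX (N : ℕ) (x : M →ₗ[ℂ] M) : Module.End ℂ (ℕ → ℕ → M) where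
  toFun G := fun i j => v N ^ (wt N i + wt N j) • x (G i j)
  map_add' G H := by
    funext i j
    simp only [Pi.add_apply, map_add, smul_add]
  map_smul' c G := by
    funext i j
    simp only [Pi.smul_apply, map_smul, RingHom.id_apply]
    rw [smul_comm]

private noncomputable def locA (N : ℕ) : Module.End ℂ (ℕ → ℕ → M) where
  toFun G := fun i j => (ecoef N (i + 1) * v N ^ (wt N j)) • G (i + 1) j
  map_add' G H := by
    funext i j
    simp only [Pi.add_apply, smul_add]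
  map_smul' c G := by
    funext i j
    simp only [Pi.smul_apply, RingHom.id_apply]
    rw [smul_comm]

private noncomputable def locB (N : ℕ) : Module.End ℂ (ℕ → ℕ → M) where
  toFun G := fun i j => ecoef N (j + 1) • G i (j + 1)
  map_add' G H := by
    funext i j
    simp only [Pi.add_apply, smul_add]
  map_smul' c G := by
    funext i j
    simp only [Pi.smul_apply, RingHom.id_apply]
    rw [smul_comm]

private theorem locX_apply (N : ℕ) (x : M →ₗ[ℂ] M) (G : ℕ → ℕ → M) (i j : ℕ) :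
    locX N x G i j = v N ^ (wt N i + wt N j) • x (G i j) := rfl

private theorem locA_apply (N : ℕ) (G : ℕ → ℕ → M) (i j : ℕ) :
    locA N G i j = (ecoef N (i + 1) * v N ^ (wt N j)) • G (i + 1) j := rfl

private theorem locB_apply (N : ℕ) (G : ℕ → ℕ → M) (i j : ℕ) :
    locB N G i j = ecoef N (j + 1) • G i (j + 1) := rfl

private theorem loc_Z2 (N : ℕ) (x : M →ₗ[ℂ] M) (n : ℕ) (G : ℕ → ℕ → M) :
    (Z2 N x)^[n] G = ((locX N x + (locA N + locB N) : Module.End ℂ (ℕ → ℕ → M)) ^ n) G := by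
  have h : Z2 N x = fun G => (locX N x + (locA N + locB N) : Module.End ℂ (ℕ → ℕ → M)) G := by
    funext G i j
    show _ = locX N x G i j + (locA N G i j + locB N G i j)
    rw [locX_apply, locA_apply, locB_apply]
    unfold Z2
    abel
  rw [h, Module.End.pow_apply]

private theorem wt_succ (N i : ℕ) : wt N (i + 1) = wt N i - 2 := by
  unfold wt; push_cast; ring

private theorem loc_BA (N : ℕ) : (locB N : Module.End ℂ (ℕ → ℕ → M)) * locA N =
    v N ^ (-2 : ℤ) • (locA N * locB N) := by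
  have hv := v_ne N
  refine LinearMap.ext fun G => ?_
  funext i j
  show locB N (locA N G) i j = v N ^ (-2 : ℤ) • locA N (locB N G) i j
  rw [locB_apply, locA_apply, locA_apply, locB_apply, smul_smul, smul_smul, smul_smul, wt_succ,
    sub_eq_add_neg, zpow_add₀ hv]
  congr 1
  ring

private theorem loc_YX (N : ℕ) (x : M →ₗ[ℂ] M) :
    (locA N + locB N : Module.End ℂ (ℕ → ℕ → M)) * locX N x =
    v N ^ (-2 : ℤ) • (locX N x * (locA N + locB N)) := by
  have hv := v_ne N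
  refine LinearMap.ext fun G => ?_
  funext i j
  show locA N (locX N x G) i j + locB N (locX N x G) i j =
    v N ^ (-2 : ℤ) • (v N ^ (wt N i + wt N j) • x (locA N G i j + locB N G i j))
  rw [locA_apply, locB_apply, locX_apply, locX_apply, locA_apply, locB_apply, map_add, map_smul,
    map_smul, smul_add, smul_add]
  simp only [smul_smul]
  rw [wt_succ, wt_succ]
  have e1 : v N ^ (wt N i - 2 + wt N j) = v N ^ (-2 : ℤ) * v N ^ (wt N i + wt N j) := by
    rw [← zpow_add₀ hv]; congr 1; ring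
  have e2 : v N ^ (wt N i + (wt N j - 2)) = v N ^ (-2 : ℤ) * v N ^ (wt N i + wt N j) := by
    rw [← zpow_add₀ hv]; congr 1; ring
  rw [e1, e2]
  congr 2 <;> ring

private theorem locX_pow (N : ℕ) (x : M →ₗ[ℂ] M) (n : ℕ) (G : ℕ → ℕ → M) (i j : ℕ) :
    (locX N x ^ n) G i j = v N ^ ((wt N i + wt N j) * n) • (x ^ n) (G i j) := by
  have hv := v_ne N
  induction n generalizing G with
  | zero => simp
  | succ n ih =>
    rw [pow_succ, Module.End.mul_apply, ih, locX_apply, map_smul, smul_smul, pow_succ,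
      Module.End.mul_apply, ← zpow_add₀ hv]
    congr 2
    push_cast
    ring

private theorem locA_pow (N : ℕ) (n : ℕ) (G : ℕ → ℕ → M) (i j : ℕ) :
    (locA N ^ n) G i j = (v N ^ (wt N j * n) * ∏ t ∈ range n, ecoef N (i + t + 1)) •
      G (i + n) j := by
  have hv := v_ne N
  induction n generalizing G with
  | zero => simp
  | succ n ih =>
    rw [pow_succ, Module.End.mul_apply, ih, locA_apply, smul_smul, prod_range_succ]
    have e : v N ^ (wt N j * ((n + 1 : ℕ) : ℤ)) = v N ^ (wt N j * (n : ℤ)) * v N ^ (wt N j) := by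
      rw [← zpow_add₀ hv]; congr 1; push_cast; ring
    rw [e, add_assoc i n 1]
    congr 1
    ring

private theorem locB_pow (N : ℕ) (n : ℕ) (G : ℕ → ℕ → M) (i j : ℕ) :
    (locB N ^ n) G i j = (∏ t ∈ range n, ecoef N (j + t + 1)) • G i (j + n) := by
  induction n generalizing G with
  | zero => simp
  | succ n ih =>
    rw [pow_succ, Module.End.mul_apply, ih, locB_apply, smul_smul, prod_range_succ]
    rfl

private theorem loc_prod {N n : ℕ} (hN : 2 ≤ N) (hn : n ≤ N) :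
    ∏ t ∈ range n, ecoef N (0 + t + 1) = qfac N n ^ 2 := by
  induction n with
  | zero => simp [qfac_zero]
  | succ n ih =>
    rw [prod_range_succ, ih (by omega), ecoef_eq hN (by omega), qfac_succ]
    push_cast
    ring

/-- the cap rule -/
theorem cap_loc {N : ℕ} (hN : 2 ≤ N) (x : M →ₗ[ℂ] M) (G : ℕ → ℕ → M) (hG : SG N G) :
    ∑ a ∈ range N, capC N a • G a (N - 1 - a) =
      (qfac N (N - 1) ^ 2 * cupC N (N - 1))⁻¹ • ∑ i ∈ range N,
        (x ^ i) (((Z2 N x)^[N - 1 - i] G) 0 0) := by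
  obtain ⟨p, rfl⟩ : ∃ p, N = p + 1 := ⟨N - 1, by omega⟩
  have hp : 1 ≤ p := by omega
  have hv := v_ne (p + 1)
  rw [Nat.add_sub_cancel]
  -- the expansion of `Z2 ^ n`
  set Y : Module.End ℂ (ℕ → ℕ → M) := locA (p + 1) + locB (p + 1) with hY
  let c : ℕ → ℕ → ℂ := fun n j =>
    (v (p + 1) ^ (-((j : ℤ) * ((n : ℤ) - j))) * qb (p + 1) n j) * v (p + 1) ^ (2 * (p : ℤ) * j)
  have hexp : ∀ n ≤ p, ((Z2 (p + 1) x)^[n] G) 0 0 =
      ∑ j ∈ range (n + 1), c n j • (x ^ j) ((Y ^ (n - j)) G 0 0) := by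
    intro n hn
    rw [loc_Z2, q_binomial hN (Or.inl rfl) _ _ (loc_YX (p + 1) x) n (by omega)]
    rw [LinearMap.sum_apply, Finset.sum_apply, Finset.sum_apply]
    refine sum_congr rfl fun j _ => ?_
    rw [LinearMap.smul_apply, Pi.smul_apply, Pi.smul_apply, Module.End.mul_apply, locX_pow,
      smul_smul]
    congr 2
    congr 1
    unfold wt
    push_cast
    ring
  have hsum : ∑ i ∈ range (p + 1), (x ^ i) (((Z2 (p + 1) x)^[p - i] G) 0 0) = (Y ^ p) G 0 0 := by
    have h1 : ∀ i ∈ range (p + 1), (x ^ i) (((Z2 (p + 1) x)^[p - i] G) 0 0) =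
        ∑ j ∈ range (p + 1 - i), c (p - i) j • (x ^ (i + j)) ((Y ^ (p - i - j)) G 0 0) := by
      intro i hi
      rw [mem_range] at hi
      rw [hexp (p - i) (by omega), map_sum, show p - i + 1 = p + 1 - i by omega]
      refine sum_congr rfl fun j _ => ?_
      rw [map_smul, pow_add, Module.End.mul_apply]
    rw [sum_congr rfl h1]
    have h2 := Finset.sum_range_diag_flip (p + 1)
      (fun i j => c (p - i) j • (x ^ (i + j)) ((Y ^ (p - i - j)) G 0 0))
    rw [← h2, sum_eq_single 0]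
    · simp [c, qb_zero_right]
    · intro s hs hs0
      rw [mem_range] at hs
      rw [← Finset.sum_flip]
      have h3 : ∀ j ∈ range (s + 1), c (p - (s - j)) (s - (s - j)) •
          (x ^ (s - j + (s - (s - j)))) ((Y ^ (p - (s - j) - (s - (s - j)))) G 0 0) =
          ((-1 : ℂ) ^ j * v (p + 1) ^ ((j : ℤ) * ((s : ℤ) - 1)) * qb (p + 1) s j) •
            (x ^ s) ((Y ^ (p - s)) G 0 0) := by
        intro j hj
        rw [mem_range] at hj
        rw [show s - (s - j) = j by omega, show s - j + j = s by omega,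
          show p - (s - j) - j = p - s by omega, show p - (s - j) = p - s + j by omega]
        congr 1
        simp only [c]
        rw [locd_qb hp (by omega) (by omega)]
        have e : v (p + 1) ^ (-((j : ℤ) * (((p - s + j : ℕ) : ℤ) - j))) *
            v (p + 1) ^ (2 * (p : ℤ) * j) = (-1 : ℂ) ^ j * v (p + 1) ^ ((j : ℤ) * ((s : ℤ) - 1)) := by
          have e2 : (-1 : ℂ) ^ j = v (p + 1) ^ (((p + 1 : ℕ) : ℤ) * (j : ℤ)) := by
            rw [locd_vN hN, zpow_natCast]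
          rw [e2, ← zpow_add₀ hv, ← zpow_add₀ hv]
          congr 1
          push_cast [Nat.cast_sub (show s ≤ p by omega)]
          ring
        linear_combination (qb (p + 1) s j) * e
      rw [sum_congr rfl h3, ← sum_smul]
      obtain ⟨t, rfl⟩ : ∃ t, s = t + 1 := ⟨s - 1, by omega⟩
      have h4 := locd_sum (N := p + 1) t
      have h5 : ∑ j ∈ range (t + 1 + 1), (-1 : ℂ) ^ j *
          v (p + 1) ^ ((j : ℤ) * (((t + 1 : ℕ) : ℤ) - 1)) * qb (p + 1) (t + 1) j = 0 := by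
        rw [← h4]
        refine sum_congr rfl fun j _ => ?_
        congr 3
        push_cast
        ring
      rw [h5, zero_smul]
    · intro h0
      simp at h0
  rw [hsum]
  -- the power of `Y`
  rw [hY, q_binomial hN (Or.inl rfl) _ _ (loc_BA (p + 1)) p (by omega), LinearMap.sum_apply,
    Finset.sum_apply, Finset.sum_apply, smul_sum]
  refine sum_congr rfl fun a ha => ?_
  rw [mem_range] at ha
  rw [LinearMap.smul_apply, Pi.smul_apply, Pi.smul_apply, Module.End.mul_apply, locA_pow,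
    locB_pow, loc_prod hN (by omega), loc_prod hN (by omega), smul_smul, smul_smul, smul_smul,
    zero_add, zero_add]
  congr 1
  have f0 : qfac (p + 1) p ≠ 0 := qfac_ne (by omega)
  have f1 := locd_qfac hp (a := a) (by omega)
  have f2 := qb_mul (N := p + 1) p a (by omega)
  have hqb : qb (p + 1) p a = 1 := by
    rw [f1] at f2
    exact mul_right_cancel₀ f0 (f2.trans (one_mul _).symm)
  have hc : cupC (p + 1) p ≠ 0 := by
    unfold cupC
    exact mul_ne_zero (pow_ne_zero _ (by norm_num)) (zpow_ne_zero _ hv)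
  have hc2 : cupC (p + 1) (p + 1 - 1 - a) ≠ 0 := by
    unfold cupC
    exact mul_ne_zero (pow_ne_zero _ (by norm_num)) (zpow_ne_zero _ hv)
  have key : cupC (p + 1) p = v (p + 1) ^ ((a : ℤ) * a) * cupC (p + 1) (p + 1 - 1 - a) := by
    unfold cupC
    rw [show p + 1 - 1 - a = p - a by omega]
    have e3 : (-1 : ℂ) ^ p = (-1 : ℂ) ^ (p - a) * (-1 : ℂ) ^ a := by
      rw [← pow_add]; congr 1; omega
    have e2 : (-1 : ℂ) ^ a = v (p + 1) ^ (((p + 1 : ℕ) : ℤ) * (a : ℤ)) := by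
      rw [locd_vN hN, zpow_natCast]
    have e4 : v (p + 1) ^ (((p + 1 : ℕ) : ℤ) * (a : ℤ)) *
        v (p + 1) ^ ((p : ℤ) * (((p + 1 : ℕ) : ℤ) - 2 - p)) = v (p + 1) ^ ((a : ℤ) * a) *
        v (p + 1) ^ (((p - a : ℕ) : ℤ) * (((p + 1 : ℕ) : ℤ) - 2 - ((p - a : ℕ) : ℤ))) := by
      rw [← zpow_add₀ hv, ← zpow_add₀ hv]
      congr 1
      push_cast [Nat.cast_sub (show a ≤ p by omega)]
      ring
    rw [e3, e2]
    linear_combination ((-1 : ℂ) ^ (p - a)) * e4
  unfold capC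
  rw [hqb, key]
  have e5 : v (p + 1) ^ (-((a : ℤ) * ((p : ℤ) - a))) * v (p + 1) ^ (wt (p + 1) 0 * (a : ℤ)) =
      v (p + 1) ^ ((a : ℤ) * a) := by
    rw [← zpow_add₀ hv]
    congr 1
    unfold wt
    push_cast
    ring
  have hva : v (p + 1) ^ ((a : ℤ) * a) ≠ 0 := zpow_ne_zero _ hv
  rw [← f1]
  have g1 : qfac (p + 1) a ≠ 0 := qfac_ne (by omega)
  have g2 : qfac (p + 1) (p - a) ≠ 0 := qfac_ne (by omega)
  rw [mul_one]
  generalize v (p + 1) ^ (-((a : ℤ) * ((p : ℤ) - a))) = W1 at e5 ⊢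
  generalize v (p + 1) ^ (wt (p + 1) 0 * (a : ℤ)) = W2 at e5 ⊢
  generalize v (p + 1) ^ ((a : ℤ) * a) = V at e5 hva ⊢
  generalize cupC (p + 1) (p + 1 - 1 - a) = C at hc2 ⊢
  generalize qfac (p + 1) a = A at g1 ⊢
  generalize qfac (p + 1) (p - a) = B at g2 ⊢
  have e6 : ∀ Q : ℂ, Q * (W1 * (W2 * A ^ 2) * B ^ 2) = Q * (V * (A ^ 2 * B ^ 2)) := by
    intro Q
    rw [← e5]
    ring
  have e7 := e6 ((A * B) ^ 2 * (V * C))⁻¹
  have e8 : ((A * B) ^ 2 * (V * C))⁻¹ * (V * (A ^ 2 * B ^ 2)) = C⁻¹ := by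
    field_simp
  rw [e8] at e7
  rw [← e7]
  ring

end Pool.Agent.Helper9.FA
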